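import Pool.Agent.Run7.h197.D.Approx

/-!
# MP_c307ca_nt: approximation by `p/q` for which a form `T(p, q)` is almost a perfect power

Let `T` be a nonzero binary form over `ℤ` of degree `e ≥ 1`. We study the approximation of algebraic
numbers `ξ` by the rational numbers `p/q` in lowest terms for which

  `T(p, q) = w z^n ≠ 0`,

where `w` has few prime factors and `n` is large. We assume that `T` has two zeros on the projective line
other than `ξ` (so `T` may have a zero at `ξ` if it has two more). For instance `T = xy`: the fractions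
`p/q` for which `p` and `q` are perfect `n`-th powers up to `w`; or `T = q (p - q)`, or `T` a form with
three different zeros.

**Theorem.** (1) For all `s`, `D`, `M` there is `κ` with the following property. Let `ξ` be ANY algebraic
number, a zero of a nonzero `f ∈ ℤ[x]` of degree at most `D`, such that `T` has two zeros other than `ξ`,
let `C₁`, `C₂` be nonzero integers such that `C₂` has at most `s` prime factors (which are arbitrary),
and let `R = 2 + log |C₁| + log rad(C₂) + log len(f)`. Then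
`|ξ - x/y| > H^(-1/M)`, `H = max(|x|, |y|)`,
for all coprime `x`, `y ≠ 0` with `0 ≠ T(x, y) = C₁ C₂ z^n`, `n > R^κ` and `log H > R^κ`.

(2) For every real algebraic irrational number `ξ` such that `T` has two zeros other than `ξ`, every finite
set of primes `S` and every `δ > 0` there are `n₀` and `c > 0` such that `|ξ - p/q| > c q^(-δ)` for all
fractions `p/q` in lowest terms for which `T(p, q)` is a nonzero `S`-unit times an `n`-th power with
`n ≥ n₀`.

So for these fractions Lang's inequality `|ξ - p/q| > c / (q^2 (log q)^(1 + ε))` holds with any power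
`q^(-δ)` in place of `q^(-2) (log q)^(-1-ε)`. The exponents in (1) are polynomial in the logarithm of the
height of `ξ`; the constants are computable in principle (the formal statement asserts existence), while
those of Roth's theorem are not. For `T = xy` and `w = 1` compare the known effective approximation of
algebraic numbers by quotients of perfect powers (linear forms in logarithms).

Proof. The orders of `T(x, y)` at the primes not dividing `C₂` are multiples of `n`, up to the order of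
`C₁`. So if `β`, `β'` are two zeros of `T` other than `ξ`, then `(x - β y)/(x - β' y)` is a product of
an `n`-th power and of powers of boundedly many numbers of small height in the fixed field of `β`, `β'`,
and it is close to `(ξ - β)/(ξ - β')`, a number of small height in a field of bounded degree, if `x/y`
is close to `ξ`. Lower bounds for linear forms in logarithms which are sharp in one height, polynomial in
the logarithms of the others, and uniform in all number fields of bounded degree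
(`Run7.h197.BK`, `Run7.h197.U`, `Run7.h197.D`) apply.
-/

set_option autoImplicit false

open MvPolynomial

namespace Pool.Agent.Results.MP_c307ca_nt.PerfectPowerValues

/-- The product of the primes dividing `z`. -/
def radical (z : ℤ) : ℕ := ∏ p ∈ z.natAbs.primeFactors, p

/-- The sum of the absolute values of the coefficients. -/
def length (f : Polynomial ℤ) : ℤ := ∑ i ∈ Finset.range (f.natDegree + 1), |f.coeff i|

/-- The form `T` has two zeros on the projective line different from each other and from `ξ`. -/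
def TwoOtherZeros (T : MvPolynomial (Fin 2) ℤ) (ξ : ℂ) : Prop :=
  ∃ z₁ z₂ : Fin 2 → ℂ, aeval z₁ T = 0 ∧ aeval z₂ T = 0 ∧ ξ * z₁ 1 ≠ z₁ 0 ∧ ξ * z₂ 1 ≠ z₂ 0 ∧
    z₁ 0 * z₂ 1 ≠ z₁ 1 * z₂ 0

/-- `R = 2 + log |C₁| + log rad(C₂) + log len(f)`. -/
noncomputable def parameter (C₁ C₂ : ℤ) (f : Polynomial ℤ) : ℝ :=
  2 + Real.log C₁.natAbs + Real.log (radical C₂) + Real.log (length f)

lemma exists_pos {ι : Type} (s : Finset ι) (g : ι → ℝ) (h : ∀ i ∈ s, 0 < g i) :
    ∃ c : ℝ, 0 < c ∧ ∀ i ∈ s, c < g i := by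
  classical
  induction s using Finset.induction_on with
  | empty => exact ⟨1, one_pos, by simp⟩
  | insert a s ha ih =>
    obtain ⟨c, hc, hcs⟩ := ih fun i hi => h i (Finset.mem_insert_of_mem hi)
    have h1 := h a (Finset.mem_insert_self a s)
    refine ⟨min c (g a / 2), lt_min hc (by linarith), fun i hi => ?_⟩
    rcases Finset.mem_insert.1 hi with rfl | hi
    · exact lt_of_le_of_lt (min_le_right _ _) (by linarith)
    · exact lt_of_le_of_lt (min_le_left _ _) (hcs i hi)

/-- **Approximation by fractions at which `T` is almost a perfect power.** -/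
theorem result (T : MvPolynomial (Fin 2) ℤ) (e : ℕ) (hT : T.IsHomogeneous e) (hT0 : T ≠ 0)
    (he : 1 ≤ e) :
    -- (1)
    (∀ s D M : ℕ, ∃ κ : ℕ, ∀ (f : Polynomial ℤ) (ξ : ℂ), f ≠ 0 → f.natDegree ≤ D →
      Polynomial.aeval ξ f = 0 → TwoOtherZeros T ξ →
      ∀ (n : ℕ) (C₁ C₂ z x y : ℤ), C₁ ≠ 0 → C₂ ≠ 0 → C₂.natAbs.primeFactors.card ≤ s → y ≠ 0 →
      IsCoprime x y → eval ![x, y] T ≠ 0 → eval ![x, y] T = C₁ * C₂ * z ^ n →
      parameter C₁ C₂ f ^ κ < n → parameter C₁ C₂ f ^ κ < Real.log (max |(x : ℝ)| |(y : ℝ)|) →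
      1 < max |(x : ℝ)| |(y : ℝ)| * ‖ξ - (x : ℂ) / y‖ ^ M) ∧
    -- (2)
    ∀ (ξ : ℝ), IsAlgebraic ℚ ξ → Irrational ξ → TwoOtherZeros T ξ → ∀ (S : Finset ℕ) (δ : ℝ), 0 < δ →
      ∃ (n₀ : ℕ) (c : ℝ), 0 < c ∧ ∀ (n : ℕ) (w z p q : ℤ), n₀ ≤ n → w ≠ 0 →
      (∀ l : ℕ, l.Prime → (l : ℤ) ∣ w → l ∈ S) → 1 ≤ q → IsCoprime p q → eval ![p, q] T ≠ 0 →
      eval ![p, q] T = w * z ^ n → c * (q : ℝ) ^ (-δ) < |ξ - p / q| := by
  classical
  have key : ∀ s D M : ℕ, ∃ κ : ℕ, ∀ (f : Polynomial ℤ) (ξ : ℂ), f ≠ 0 → f.natDegree ≤ D →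
      Polynomial.aeval ξ f = 0 → TwoOtherZeros T ξ →
      ∀ (n : ℕ) (C₁ C₂ z x y : ℤ), C₁ ≠ 0 → C₂ ≠ 0 → C₂.natAbs.primeFactors.card ≤ s → y ≠ 0 →
      IsCoprime x y → eval ![x, y] T ≠ 0 → eval ![x, y] T = C₁ * C₂ * z ^ n →
      parameter C₁ C₂ f ^ κ < n → parameter C₁ C₂ f ^ κ < Real.log (max |(x : ℝ)| |(y : ℝ)|) →
      1 < max |(x : ℝ)| |(y : ℝ)| * ‖ξ - (x : ℂ) / y‖ ^ M := by
    intro s D M
    obtain ⟨κ, hκ⟩ := Run7.h197.D.approx hT hT0 he s D M
    refine ⟨κ, ?_⟩
    intro f ξ hf hfD hξ hsep n C₁ C₂ z x y hC₁ hC₂ hs hy hxy hTxy heq hn hH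
    by_contra hcon
    push Not at hcon
    have hlen0 : 0 ≤ length f := Finset.sum_nonneg fun _ _ => abs_nonneg _
    obtain ⟨Λ, hΛ⟩ := Int.eq_ofNat_of_zero_le hlen0
    have hξ' : (f.map (Int.castRingHom ℂ)).eval ξ = 0 := by
      rw [Polynomial.eval_map]
      rw [Polynomial.aeval_def] at hξ
      exact hξ
    have h1 := hκ f ξ Λ hf hfD hξ' hΛ.le hsep n C₁ C₂ z x y
      hC₁ hC₂ hs hy hxy hTxy heq (by rw [norm_sub_rev]; exact hcon)
    have h2 : (2 : ℝ) + Real.log C₁.natAbs + Real.log (Run7.h197.W.rad C₂) + Real.log Λ =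
        parameter C₁ C₂ f := by
      unfold parameter
      rw [hΛ]
      rfl
    rw [h2] at h1
    rcases min_le_iff.1 h1 with h | h
    · exact absurd h (not_le.2 hn)
    · exact absurd h (not_le.2 hH)
  refine ⟨key, ?_⟩
  intro ξ halg hirr hsep S δ hδ
  obtain ⟨f, hf, hfξ⟩ : ∃ f : Polynomial ℤ, f ≠ 0 ∧ Polynomial.aeval ξ f = 0 :=
    (IsFractionRing.isAlgebraic_iff ℤ ℚ ℝ).2 halg
  have hfξ' : Polynomial.aeval (ξ : ℂ) f = 0 := by
    have h1 := congrArg (algebraMap ℝ ℂ) hfξ
    rw [map_zero, ← Polynomial.aeval_algebraMap_apply] at h1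
    exact h1
  obtain ⟨M, hM⟩ : ∃ M : ℕ, M = ⌈1 / δ⌉₊ + 1 := ⟨_, rfl⟩
  have hMδ : 1 ≤ δ * M := by
    have h1 : 1 / δ ≤ ⌈1 / δ⌉₊ := Nat.le_ceil _
    have h2 : 1 / δ ≤ (M : ℝ) := by
      rw [hM]
      push_cast
      linarith
    rw [div_le_iff₀ hδ] at h2
    linarith
  have hM1 : 1 ≤ M := by omega
  obtain ⟨κ, hκ⟩ := key S.card f.natDegree M
  obtain ⟨Q, hQ⟩ : ∃ Q : ℕ, Q = ∏ p ∈ S.filter Nat.Prime, p := ⟨_, rfl⟩
  have hQ1 : 1 ≤ Q := by
    rw [hQ]
    have h0 : 0 < ∏ p ∈ S.filter Nat.Prime, p :=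
      Finset.prod_pos fun p hp => (Finset.mem_filter.1 hp).2.pos
    omega
  have hlen1 : 1 ≤ length f := by
    have h1 : |f.coeff f.natDegree| ≤ length f :=
      Finset.single_le_sum (f := fun i => |f.coeff i|) (fun _ _ => abs_nonneg _)
        (Finset.mem_range.2 (Nat.lt_succ_self _))
    exact (Int.one_le_abs (Polynomial.leadingCoeff_ne_zero.2 hf)).trans h1
  obtain ⟨R, hR⟩ : ∃ R : ℝ, R = 2 + Real.log Q + Real.log (length f) := ⟨_, rfl⟩
  have lf : 0 ≤ Real.log (length f) := Real.log_nonneg (by exact_mod_cast hlen1)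
  obtain ⟨N, hN⟩ : ∃ N : ℕ, Real.exp (R ^ κ) ≤ N := exists_nat_ge _
  obtain ⟨c₁, hc₁, hc₁'⟩ := exists_pos (Finset.Icc (-(N : ℤ)) N ×ˢ Finset.Icc (-(N : ℤ)) N)
    (fun i => |ξ - i.1 / i.2|) (by
      rintro ⟨p, q⟩ -
      rw [abs_pos, sub_ne_zero]
      intro h
      apply hirr
      exact ⟨(p : ℚ) / q, by push_cast; exact h.symm⟩)
  obtain ⟨A, hA⟩ : ∃ A : ℝ, A = |ξ| + 1 := ⟨_, rfl⟩
  have hA1 : 1 ≤ A := by
    have := abs_nonneg ξ
    rw [hA]
    linarith
  obtain ⟨c, hc⟩ : ∃ c : ℝ, c = min c₁ (1 / (2 * A)) := ⟨_, rfl⟩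
  have hc0 : 0 < c := by rw [hc]; exact lt_min hc₁ (by positivity)
  have hcc₁ : c ≤ c₁ := by rw [hc]; exact min_le_left _ _
  have hcA : c ≤ 1 / (2 * A) := by rw [hc]; exact min_le_right _ _
  have hcA' : c ≤ 1 / A := hcA.trans (one_div_le_one_div_of_le (by linarith) (by linarith))
  have hchalf : c < 1 := by
    have h1 : 1 / (2 * A) ≤ 1 / 2 := one_div_le_one_div_of_le (by norm_num) (by linarith)
    linarith
  refine ⟨⌈R ^ κ⌉₊ + 1, c, hc0, ?_⟩
  intro n w z p q hn hw hwS hq hpq hT1 hT2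
  have hqr : (1 : ℝ) ≤ q := by exact_mod_cast hq
  have hq0 : (0 : ℝ) < q := by linarith
  have hqδ : (q : ℝ) ^ (-δ) ≤ 1 := Real.rpow_le_one_of_one_le_of_nonpos hqr (by linarith)
  have hqδ0 : 0 < (q : ℝ) ^ (-δ) := Real.rpow_pos_of_pos hq0 _
  have hprod : c * (q : ℝ) ^ (-δ) ≤ c := by nlinarith
  -- the radical of `w`
  have hsub : w.natAbs.primeFactors ⊆ S.filter Nat.Prime := by
    intro l hl
    have h1 := Nat.mem_primeFactors.1 hl
    rw [Finset.mem_filter]
    exact ⟨hwS l h1.1 (Int.natCast_dvd.2 h1.2.1), h1.1⟩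
  have hcard : w.natAbs.primeFactors.card ≤ S.card :=
    (Finset.card_le_card hsub).trans (Finset.card_filter_le _ _)
  have hrad : radical w ≤ Q := by
    rw [hQ]
    exact Nat.le_of_dvd (Finset.prod_pos fun p hp => (Finset.mem_filter.1 hp).2.pos)
      (Finset.prod_dvd_prod_of_subset _ _ _ hsub)
  have hradpos : 0 < radical w :=
    Finset.prod_pos fun p hp => (Nat.prime_of_mem_primeFactors hp).pos
  have hpar : parameter 1 w f ≤ R := by
    unfold parameter
    rw [hR]
    have h1 : Real.log (radical w) ≤ Real.log Q :=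
      Real.log_le_log (by exact_mod_cast hradpos) (by exact_mod_cast hrad)
    have h2 : Real.log ((1 : ℤ).natAbs : ℝ) = 0 := by simp
    linarith
  have hpar0 : 0 ≤ parameter 1 w f := by
    unfold parameter
    have h1 : 0 ≤ Real.log (radical w : ℝ) := Real.log_natCast_nonneg _
    have h2 : Real.log ((1 : ℤ).natAbs : ℝ) = 0 := by simp
    linarith
  have hparκ : parameter 1 w f ^ κ ≤ R ^ κ := pow_le_pow_left₀ hpar0 hpar κ
  have hnR : R ^ κ < n := by
    have g1 := Nat.le_ceil (R ^ κ)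
    have g2 : ((⌈R ^ κ⌉₊ + 1 : ℕ) : ℝ) ≤ n := by exact_mod_cast hn
    push_cast at g2
    linarith
  obtain ⟨H, hH⟩ : ∃ H, H = max |(p : ℝ)| |(q : ℝ)| := ⟨_, rfl⟩
  have hH1 : 1 ≤ H := by
    rw [hH]
    exact (hqr.trans (le_abs_self _)).trans (le_max_right _ _)
  by_cases hsmall : Real.log H ≤ R ^ κ
  · -- small height
    have h1 : H ≤ N := by
      have h2 : H ≤ Real.exp (R ^ κ) := by
        rw [← Real.exp_log (by linarith : 0 < H)]
        exact Real.exp_le_exp.2 hsmall
      exact h2.trans hN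
    have h2 : |p| ≤ N := by
      have : |(p : ℝ)| ≤ N := (le_max_left _ _).trans (hH ▸ h1)
      exact_mod_cast this
    have h3 : |q| ≤ N := by
      have : |(q : ℝ)| ≤ N := (le_max_right _ _).trans (hH ▸ h1)
      exact_mod_cast this
    have h4 := hc₁' (p, q) (Finset.mem_product.2 ⟨Finset.mem_Icc.2 (abs_le.1 h2),
      Finset.mem_Icc.2 (abs_le.1 h3)⟩)
    have h5 : c₁ < |ξ - p / q| := h4
    linarith
  · push Not at hsmall
    have h1 := hκ f ξ hf le_rfl hfξ' hsep n 1 w z p q one_ne_zero hw hcard (by omega) hpq hT1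
      (by rw [one_mul]; exact hT2) (lt_of_le_of_lt hparκ hnR)
      (lt_of_le_of_lt hparκ (by rw [← hH]; exact hsmall))
    rw [← hH] at h1
    have h2 : ‖(ξ : ℂ) - (p : ℂ) / q‖ = |ξ - p / q| := by
      have : (ξ : ℂ) - (p : ℂ) / q = ((ξ - p / q : ℝ) : ℂ) := by push_cast; ring
      rw [this, Complex.norm_real, Real.norm_eq_abs]
    rw [h2] at h1
    by_contra hcon
    push Not at hcon
    have h3 : |ξ - p / q| ≤ 1 := by linarith
    have h4 : |(p : ℝ)| ≤ A * q := by
      have h5 : |(p : ℝ) / q| ≤ A := by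
        have h6 : (p : ℝ) / q = ξ - (ξ - p / q) := by ring
        rw [h6, hA]
        exact (abs_sub _ _).trans (by linarith)
      rw [abs_div, abs_of_pos hq0, div_le_iff₀ hq0] at h5
      exact h5
    have h5 : H ≤ A * q := by
      rw [hH, abs_of_pos hq0]
      refine max_le h4 ?_
      nlinarith
    have h6 : |ξ - p / q| ^ M ≤ 1 / A * (1 / q) := by
      calc |ξ - p / q| ^ M ≤ (c * (q : ℝ) ^ (-δ)) ^ M := pow_le_pow_left₀ (abs_nonneg _) hcon M
        _ = c ^ M * ((q : ℝ) ^ (-δ)) ^ M := mul_pow _ _ _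
        _ ≤ 1 / A * (1 / q) := by
            apply mul_le_mul _ _ (by positivity) (by positivity)
            · exact (pow_le_of_le_one hc0.le hchalf.le (by omega)).trans hcA'
            · rw [← Real.rpow_natCast, ← Real.rpow_mul hq0.le, one_div, ← Real.rpow_neg_one]
              apply Real.rpow_le_rpow_of_exponent_le hqr
              linarith
    have h7 : H * |ξ - p / q| ^ M ≤ (A * q) * (1 / A * (1 / q)) :=
      mul_le_mul h5 h6 (by positivity) (by positivity)
    have h8 : (A * q) * (1 / A * (1 / q)) = 1 := by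
      field_simp
    linarith

end Pool.Agent.Results.MP_c307ca_nt.PerfectPowerValues
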