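import Pool.Agent.Run7.h783.PL.Ext
import Pool.Agent.N965.LN.Log
import Pool.Agent.W472.AC.RothThm

/-!
# Lang's inequality for almost all values of polynomials with algebraic coefficients

Let `f` be a polynomial with real algebraic coefficients, and let `j ≥ 1` be the largest index of an
irrational coefficient. Then almost all the algebraic numbers `f(n)`, `M < n ≤ M + N`, satisfy Lang's
inequality for the denominators `q ≤ N ^ κ`, for every `κ < 2 ^ (1 - j)`, uniformly in `M`. The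
number of exceptions is estimated in the form of Khintchine's theorem, uniformly in all real
coefficients of index less than `j` and in all coefficients of index greater than `j` with a common
denominator `b`; the degree of `f` is not bounded.

Method: the Fejér majorant, Weyl's inequality on average over the frequencies `v q ξ` (with a
recursive bound which depends on the leading coefficient only), the divisor bound, Roth's theorem.
-/

set_option autoImplicit false

namespace Pool.Agent.Results.MP_c307ca_nt.PolynomialValues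

open Finset Polynomial
open Pool.Agent.N965
open Pool.Agent.Run7.h783.PL (Khintchine exceptions Roth)

/-- Lang's inequality for the number `α` with the constant `c`, for the denominators up to `X`. -/
def LangUpTo (X c ε α : ℝ) : Prop :=
  ∀ (p : ℤ) (q : ℕ), 2 ≤ q → (q : ℝ) ≤ X →
    c / ((q : ℝ) ^ 2 * Real.log q ^ (1 + ε)) < |α - (p : ℝ) / q|

/-- For every nonnegative nonincreasing summable `ψ`, every `Q ≥ 1` and `δ > 0` there is `N₀` such
that for ALL real polynomials `g` of degree `d` with the leading coefficient `ξ`, all polynomials `H`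
with integral coefficients (of any degree) and all intervals `M < n ≤ M + N` with `N ≥ N₀`, at most
`(10 ∑_{q ≥ Q} ψ(q) + δ) N` of the numbers `α = g(n) + H(n) / b` satisfy `|α - p / q| ≤ ψ(q) / q` for
some integers `p` and `Q ≤ q ≤ N ^ κ`. -/
def AlmostAllKhintchine (ξ : ℝ) (d b : ℕ) (κ : ℝ) : Prop :=
  ∀ ψ : ℕ → ℝ, (∀ q, 0 ≤ ψ q) → Antitone ψ → Summable ψ → ∀ Q : ℕ, 1 ≤ Q → ∀ δ : ℝ, 0 < δ →
    ∃ N₀ : ℕ, ∀ g : ℝ[X], g.natDegree = d → g.leadingCoeff = ξ →
      ∀ (H : ℤ[X]) (M : ℤ) (N : ℕ), N₀ ≤ N →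
        (exceptions (fun n => g.eval (n : ℝ) + ((H.eval n : ℤ) : ℝ) / b) M N
          (Khintchine Q ((N : ℝ) ^ κ) ψ) : ℝ) ≤ (10 * ∑' q, ψ (q + Q) + δ) * N

/-- For all `ε, η > 0` there are `c > 0` and `N₀` such that for ALL real polynomials `g` of degree `d`
with the leading coefficient `ξ`, all polynomials `H` with integral coefficients (of any degree) and
all intervals `M < n ≤ M + N` with `N ≥ N₀`, all but at most `η N` of the numbers
`α = g(n) + H(n) / b` satisfy `|α - p / q| > c / (q² (log q)^(1+ε))` for all integers `p` and all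
`2 ≤ q ≤ N ^ κ`. -/
def AlmostAllLang (ξ : ℝ) (d b : ℕ) (κ : ℝ) : Prop :=
  ∀ ε η : ℝ, 0 < ε → 0 < η → ∃ c : ℝ, 0 < c ∧ ∃ N₀ : ℕ, ∀ g : ℝ[X], g.natDegree = d →
    g.leadingCoeff = ξ → ∀ (H : ℤ[X]) (M : ℤ) (N : ℕ), N₀ ≤ N →
      (exceptions (fun n => g.eval (n : ℝ) + ((H.eval n : ℤ) : ℝ) / b) M N
        (LangUpTo ((N : ℝ) ^ κ) c ε) : ℝ) ≤ η * N

theorem exceptions_mono (F : ℤ → ℝ) (M : ℤ) (N : ℕ) (P P' : ℝ → Prop) (h : ∀ x, P' x → P x) :
    exceptions F M N P ≤ exceptions F M N P' := by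
  unfold exceptions
  refine Set.ncard_le_ncard (fun n hn => ⟨hn.1, hn.2.1, fun h' => hn.2.2 (h _ h')⟩) ?_
  refine (Finset.finite_toSet (Ioc M (M + N))).subset fun n hn => ?_
  rw [Finset.mem_coe, mem_Ioc]
  exact ⟨hn.1, hn.2.1⟩

theorem khintchine (ξ : ℝ) (halg : IsAlgebraic ℚ ξ) (hirr : Irrational ξ) (d : ℕ) (hd : 1 ≤ d)
    (b : ℕ) (hb : 1 ≤ b) (κ : ℝ) (hκ : κ < 1 / (2 : ℝ) ^ (d - 1)) : AlmostAllKhintchine ξ d b κ := by
  obtain ⟨k, rfl⟩ : ∃ k, d = k + 1 := ⟨d - 1, by omega⟩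
  rw [Nat.add_sub_cancel] at hκ
  have hR : Roth ((b : ℝ) ^ (k + 1) * ξ) := by
    intro τ hτ
    have h1 : IsAlgebraic ℚ ((b : ℝ) ^ (k + 1) * ξ) := by
      have h2 : IsAlgebraic ℚ ((b : ℝ) ^ (k + 1)) := by
        have h3 := isAlgebraic_algebraMap (R := ℚ) (A := ℝ) ((b : ℚ) ^ (k + 1))
        simpa using h3
      exact h2.mul halg
    have h2 : Irrational ((b : ℝ) ^ (k + 1) * ξ) := by
      have h3 := hirr.natCast_mul (m := b ^ (k + 1)) (by positivity)
      push_cast at h3
      exact h3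
    exact Pool.Agent.W472.AC.roth _ h1 h2 τ hτ
  intro ψ hψ0 hψ hs Q hQ δ hδ
  obtain ⟨N₀, h⟩ := Pool.Agent.Run7.h783.PL.ext ξ hirr k b hb hR κ hκ ψ hψ0 hψ hs Q hQ δ hδ
  refine ⟨N₀, fun g hg hc H M N hN => h g hg.le ?_ H M N hN⟩
  rw [← hg]
  exact hc

theorem lang_of (ξ : ℝ) (d b : ℕ) (κ : ℝ) (h : AlmostAllKhintchine ξ d b κ) :
    AlmostAllLang ξ d b κ := by
  intro ε η hε hη
  set L := ∑' q, LN.lang ε (q + 2) with hL
  have hL0 : 0 ≤ L := tsum_nonneg fun q => LN.lang_nonneg ε _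
  set c := η / (2 * (10 * L + 1)) with hc
  have hc0 : 0 < c := by positivity
  obtain ⟨N₀, hN₀⟩ := h (fun q => c * LN.lang ε q) (fun q => mul_nonneg hc0.le (LN.lang_nonneg ε q))
    (fun a b hab => mul_le_mul_of_nonneg_left (LN.lang_anti ε hε hab) hc0.le)
    ((LN.lang_summable ε hε).mul_left c) 2 (by norm_num) (η / 2) (by linarith)
  refine ⟨c, hc0, N₀, fun g hg hgc H M N hN => ?_⟩
  have h1 := hN₀ g hg hgc H M N hN
  have h2 : (exceptions (fun n => g.eval (n : ℝ) + ((H.eval n : ℤ) : ℝ) / b) M N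
      (LangUpTo ((N : ℝ) ^ κ) c ε) : ℝ) ≤
      (exceptions (fun n => g.eval (n : ℝ) + ((H.eval n : ℤ) : ℝ) / b) M N
        (Khintchine 2 ((N : ℝ) ^ κ) fun q => c * LN.lang ε q) : ℝ) := by
    have h3 := exceptions_mono (fun n => g.eval (n : ℝ) + ((H.eval n : ℤ) : ℝ) / b) M N
      (LangUpTo ((N : ℝ) ^ κ) c ε)
      (Khintchine 2 ((N : ℝ) ^ κ) fun q => c * LN.lang ε q) (by
        intro x hx p q hq hqN
        have h4 := hx p q (by omega) hq hqN
        rw [mul_div_assoc, LN.lang_eq ε q hq, mul_one_div] at h4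
        exact h4)
    exact_mod_cast h3
  refine (h2.trans h1).trans ?_
  apply mul_le_mul_of_nonneg_right _ (by positivity)
  rw [tsum_mul_left, ← hL]
  have h5 : 10 * (c * L) ≤ η / 2 := by
    have h6 : 10 * (c * L) = η / 2 * (10 * L / (10 * L + 1)) := by
      rw [hc]
      have : 10 * L + 1 ≠ 0 := by positivity
      field_simp
    rw [h6]
    have h7 : 10 * L / (10 * L + 1) ≤ 1 := by
      rw [div_le_one (by positivity)]
      linarith
    nlinarith
  linarith

/-- the decomposition of a polynomial with rational coefficients of index greater than `j` -/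
theorem decompose (f : ℝ[X]) (j : ℕ) (hj : f.coeff j ≠ 0)
    (hrat : ∀ i, j < i → ¬ Irrational (f.coeff i)) :
    ∃ (g : ℝ[X]) (H : ℤ[X]) (b : ℕ), 1 ≤ b ∧ g.natDegree = j ∧ g.leadingCoeff = f.coeff j ∧
      ∀ n : ℤ, f.eval (n : ℝ) = g.eval (n : ℝ) + ((H.eval n : ℤ) : ℝ) / b := by
  classical
  have hr : ∀ i, ∃ r : ℚ, j < i → (r : ℝ) = f.coeff i := by
    intro i
    by_cases h : j < i
    · have h1 := hrat i h
      unfold Irrational at h1
      push Not at h1
      obtain ⟨r, hr⟩ := h1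
      exact ⟨r, fun _ => hr⟩
    · exact ⟨0, fun h' => absurd h' h⟩
  choose r hr using hr
  set T := f.natDegree + 1 with hT
  have hjT : j + 1 ≤ T := by
    have := le_natDegree_of_ne_zero hj
    omega
  set b : ℕ := ∏ i ∈ Ico (j + 1) T, (r i).den with hb
  have hb0 : 0 < b := Finset.prod_pos fun i _ => (r i).den_pos
  have ha : ∀ i, ∃ a : ℤ, i ∈ Ico (j + 1) T → (a : ℝ) = b * (r i : ℝ) := by
    intro i
    by_cases h : i ∈ Ico (j + 1) T
    · obtain ⟨m, hm⟩ : (r i).den ∣ b := Finset.dvd_prod_of_mem _ h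
      refine ⟨m * (r i).num, fun _ => ?_⟩
      have h1 : ((r i : ℚ) : ℝ) = ((r i).num : ℝ) / ((r i).den : ℝ) := by
        exact_mod_cast (Rat.num_div_den (r i)).symm
      have h2 : (0 : ℝ) < ((r i).den : ℝ) := by exact_mod_cast (r i).den_pos
      rw [h1, hm]
      push_cast
      field_simp
    · exact ⟨0, fun h' => absurd h' h⟩
  choose a ha using ha
  set g : ℝ[X] := ∑ i ∈ range (j + 1), monomial i (f.coeff i) with hg
  have hgc : ∀ n, g.coeff n = if n < j + 1 then f.coeff n else 0 := by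
    intro n
    rw [hg, finsetSum_coeff]
    simp only [coeff_monomial]
    rw [Finset.sum_ite_eq' (range (j + 1)) n f.coeff]
    simp only [mem_range]
  have hgj : g.coeff j = f.coeff j := by
    rw [hgc, if_pos (by omega)]
  have hgd : g.natDegree = j := by
    refine le_antisymm ?_ (le_natDegree_of_ne_zero (by rw [hgj]; exact hj))
    rw [natDegree_le_iff_coeff_eq_zero]
    intro n hn
    rw [hgc, if_neg (by omega)]
  refine ⟨g, ∑ i ∈ Ico (j + 1) T, monomial i (a i), b, hb0, hgd, ?_, fun n => ?_⟩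
  · rw [leadingCoeff, hgd, hgj]
  · have h1 : f.eval (n : ℝ) = ∑ i ∈ range T, f.coeff i * (n : ℝ) ^ i := eval_eq_sum_range _
    have h2 : g.eval (n : ℝ) = ∑ i ∈ range (j + 1), f.coeff i * (n : ℝ) ^ i := by
      rw [hg, eval_finsetSum]
      simp only [eval_monomial]
    have h3 : (((∑ i ∈ Ico (j + 1) T, monomial i (a i) : ℤ[X]).eval n : ℤ) : ℝ) / b =
        ∑ i ∈ Ico (j + 1) T, f.coeff i * (n : ℝ) ^ i := by
      rw [eval_finsetSum]
      simp only [eval_monomial]
      push_cast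
      rw [Finset.sum_div]
      refine Finset.sum_congr rfl fun i hi => ?_
      have h4 : (0 : ℝ) < b := by exact_mod_cast hb0
      rw [ha i hi, hr i (by rw [mem_Ico] at hi; omega)]
      field_simp
    rw [h1, h2, h3, Finset.range_eq_Ico, Finset.range_eq_Ico]
    exact (Finset.sum_Ico_consecutive _ (Nat.zero_le _) hjT).symm

/-- **Lang's inequality for almost all values of polynomials.**

(1) Let `ξ` be a real algebraic irrational number, `d ≥ 1`, `b ≥ 1` and `κ < 2 ^ (1 - d)`. For every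
nonnegative nonincreasing summable `ψ`, every `Q ≥ 1` and `δ > 0` there is `N₀` such that for ALL real
polynomials `g = ξ X ^ d + …` of degree `d`, ALL integral polynomials `H` of any degree and all
intervals `M < n ≤ M + N` with `N ≥ N₀` at most `(10 ∑_{q ≥ Q} ψ(q) + δ) N` of the numbers
`α = g(n) + H(n) / b` satisfy `|α - p / q| ≤ ψ(q) / q` for some integers `p` and `Q ≤ q ≤ N ^ κ`. In
particular for all `ε, η > 0` there is `c > 0` such that, in the same sense, all but at most `η N` of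
them satisfy `|α - p / q| > c / (q² (log q)^(1+ε))` for all integers `p` and all `2 ≤ q ≤ N ^ κ`.

(2) Let `f` be a polynomial with real algebraic coefficients, let `j ≥ 1` be the largest index of an
irrational coefficient of `f`, and `κ < 2 ^ (1 - j)`. For all `ε, η > 0` there are `c > 0` and `N₀`
such that for all `M` and all `N ≥ N₀` all but at most `η N` of the algebraic numbers `f(n)`,
`M < n ≤ M + N`, satisfy `|f(n) - p / q| > c / (q² (log q)^(1+ε))` for all integers `p` and all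
`2 ≤ q ≤ N ^ κ`. -/
theorem result :
    (∀ ξ : ℝ, IsAlgebraic ℚ ξ → Irrational ξ → ∀ d : ℕ, 1 ≤ d → ∀ b : ℕ, 1 ≤ b →
      ∀ κ : ℝ, κ < 1 / (2 : ℝ) ^ (d - 1) → AlmostAllKhintchine ξ d b κ ∧ AlmostAllLang ξ d b κ) ∧
    (∀ f : ℝ[X], (∀ i, IsAlgebraic ℚ (f.coeff i)) → ∀ j : ℕ, 1 ≤ j → Irrational (f.coeff j) →
      (∀ i, j < i → ¬ Irrational (f.coeff i)) → ∀ κ : ℝ, κ < 1 / (2 : ℝ) ^ (j - 1) →
        ∀ ε η : ℝ, 0 < ε → 0 < η → ∃ c : ℝ, 0 < c ∧ ∃ N₀ : ℕ, ∀ (M : ℤ) (N : ℕ), N₀ ≤ N →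
          (exceptions (fun n => f.eval (n : ℝ)) M N (LangUpTo ((N : ℝ) ^ κ) c ε) : ℝ) ≤ η * N) := by
  refine ⟨fun ξ halg hirr d hd b hb κ hκ => ?_, fun f hf j hj hirr hrat κ hκ ε η hε hη => ?_⟩
  · have h := khintchine ξ halg hirr d hd b hb κ hκ
    exact ⟨h, lang_of ξ d b κ h⟩
  · obtain ⟨g, H, b, hb, hgd, hgc, hfe⟩ := decompose f j hirr.ne_zero hrat
    obtain ⟨c, hc, N₀, h⟩ := lang_of _ j b κ (khintchine _ (hf j) hirr j hj b hb κ hκ) ε η hε hη
    refine ⟨c, hc, N₀, fun M N hN => ?_⟩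
    have h1 := h g hgd hgc H M N hN
    simp only [hfe]
    exact h1

end Pool.Agent.Results.MP_c307ca_nt.PolynomialValues
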