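import Pool.Agent.Run7.h95.LG.Mod
import Pool.Agent.N965.LN.Log
import Pool.Agent.N965.LN.Sch

set_option autoImplicit false

/-!
# Lang's inequality for almost all elements of the translates of lattices of algebraic numbers

Let `ξ 1, …, ξ m` be real algebraic numbers such that `1, ξ 1, …, ξ m` are linearly independent over
the rational numbers. For every `κ < m` almost all numbers `β + a 1 ξ 1 + ⋯ + a m ξ m`, `|a i| ≤ H`,
satisfy Lang's inequality for the denominators `q ≤ H ^ κ`, uniformly in the real number `β`; more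
precisely the number of the `a` for which `|α - p / q| ≤ ψ(q) / q` for some `Q ≤ q ≤ H ^ κ` is at most
`(20 * 8 ^ m * ∑_{q ≥ Q} ψ(q) + o(1)) H ^ m`, for every nonincreasing summable `ψ`. In a real number
field of degree `m + 1` the same holds for the elements of every lattice (for example for the
algebraic integers of the field) and of every translate of it.

Method. The differences of the solutions of an inequality `‖q (β + a ξ)‖ ≤ δ` are solutions of a
homogeneous inequality, which are counted with the Fejér majorant and Schmidt's theorem on simultaneous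
approximation (starting files `Pool/Agent/N965/LN`).
-/

namespace Pool.Agent.Results.MP_c307ca_nt.TranslatesOfLattices

open Finset
open Pool.Agent.N965 Run7.h95

/-- `|α - p / q| > ψ(q) / q` for all integers `p` and all positive integers `q` with `Q ≤ q ≤ N`. -/
def Khintchine (Q : ℕ) (N : ℝ) (ψ : ℕ → ℝ) (α : ℝ) : Prop :=
  ∀ (p : ℤ) (q : ℕ), 1 ≤ q → Q ≤ q → (q : ℝ) ≤ N → ψ q / q < |α - (p : ℝ) / q|

/-- Lang's inequality for the number `α` with the constant `c`, for the denominators up to `N`. -/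
def LangUpTo (N c ε α : ℝ) : Prop :=
  ∀ (p : ℤ) (q : ℕ), 2 ≤ q → (q : ℝ) ≤ N →
    c / ((q : ℝ) ^ 2 * Real.log q ^ (1 + ε)) < |α - (p : ℝ) / q|

/-- The number of the integral vectors `a` with `|a i| ≤ H` for which the number `β + ∑ a i * ξ i` does
not have the property `P`. -/
noncomputable def exceptions {n : ℕ} (ξ : Fin n → ℝ) (β : ℝ) (H : ℕ) (P : ℝ → Prop) : ℕ :=
  {a : Fin n → ℤ | (∀ i, |a i| ≤ (H : ℤ)) ∧ ¬ P (β + ∑ i, (a i : ℝ) * ξ i)}.ncard

/-- For every nonnegative nonincreasing summable `ψ`, every `Q ≥ 1` and `δ > 0`, for all large `H` and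
all real numbers `β`, at most `(B ∑_{q ≥ Q} ψ(q) + δ) H ^ n` of the numbers `β + ∑ a i * ξ i` with
`|a i| ≤ H` satisfy `|α - p / q| ≤ ψ(q) / q` for some integers `p` and `Q ≤ q ≤ H ^ κ`. -/
def AlmostAllKhintchine {n : ℕ} (ξ : Fin n → ℝ) (κ B : ℝ) : Prop :=
  ∀ ψ : ℕ → ℝ, (∀ q, 0 ≤ ψ q) → Antitone ψ → Summable ψ → ∀ Q : ℕ, 1 ≤ Q → ∀ δ : ℝ, 0 < δ →
    ∃ H₀ : ℕ, ∀ (β : ℝ) (H : ℕ), H₀ ≤ H →
      (exceptions ξ β H (Khintchine Q ((H : ℝ) ^ κ) ψ) : ℝ) ≤
        (B * ∑' q, ψ (q + Q) + δ) * (H : ℝ) ^ n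

/-- For all `ε, η > 0` there is `c > 0` such that for all large `H` and all real numbers `β` all but at
most `η H ^ n` of the numbers `α = β + ∑ a i * ξ i` with `|a i| ≤ H` satisfy Lang's inequality
`|α - p / q| > c / (q² (log q)^(1+ε))` for all integers `p` and all `2 ≤ q ≤ H ^ κ`. -/
def AlmostAllLang {n : ℕ} (ξ : Fin n → ℝ) (κ : ℝ) : Prop :=
  ∀ ε η : ℝ, 0 < ε → 0 < η → ∃ c : ℝ, 0 < c ∧ ∃ H₀ : ℕ, ∀ (β : ℝ) (H : ℕ), H₀ ≤ H →
    (exceptions ξ β H (LangUpTo ((H : ℝ) ^ κ) c ε) : ℝ) ≤ η * (H : ℝ) ^ n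

theorem box_finite {n : ℕ} (H : ℕ) (P : (Fin n → ℤ) → Prop) :
    {a : Fin n → ℤ | (∀ i, |a i| ≤ (H : ℤ)) ∧ P a}.Finite :=
  (Finset.finite_toSet (LN.box n H)).subset fun a ha => (LG.mem_box a).2 ha.1

theorem exceptions_mono {n : ℕ} (ξ : Fin n → ℝ) (β : ℝ) (H : ℕ) (P P' : ℝ → Prop)
    (h : ∀ x, P' x → P x) : exceptions ξ β H P ≤ exceptions ξ β H P' := by
  unfold exceptions
  exact Set.ncard_le_ncard (fun a ha => ⟨ha.1, fun h' => ha.2 (h _ h')⟩) (box_finite H _)

theorem lang_of {n : ℕ} (ξ : Fin n → ℝ) (κ B : ℝ) (hB : 0 ≤ B) (h : AlmostAllKhintchine ξ κ B) :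
    AlmostAllLang ξ κ := by
  intro ε η hε hη
  set L := ∑' q, LN.lang ε (q + 2) with hL
  have hL0 : 0 ≤ L := tsum_nonneg fun q => LN.lang_nonneg ε _
  set c := η / (2 * (B * L + 1)) with hc
  have hc0 : 0 < c := by positivity
  obtain ⟨H₀, hH₀⟩ := h (fun q => c * LN.lang ε q) (fun q => mul_nonneg hc0.le (LN.lang_nonneg ε q))
    (fun a b hab => mul_le_mul_of_nonneg_left (LN.lang_anti ε hε hab) hc0.le)
    ((LN.lang_summable ε hε).mul_left c) 2 (by norm_num) (η / 2) (by linarith)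
  refine ⟨c, hc0, H₀, fun β H hH => ?_⟩
  have h1 := hH₀ β H hH
  have h2 : (exceptions ξ β H (LangUpTo ((H : ℝ) ^ κ) c ε) : ℝ) ≤
      (exceptions ξ β H (Khintchine 2 ((H : ℝ) ^ κ) fun q => c * LN.lang ε q) : ℝ) := by
    have h3 := exceptions_mono ξ β H (LangUpTo ((H : ℝ) ^ κ) c ε)
      (Khintchine 2 ((H : ℝ) ^ κ) fun q => c * LN.lang ε q) (by
        intro x hx p q hq hqN
        have h4 := hx p q (by omega) hq hqN
        rw [mul_div_assoc, LN.lang_eq ε q hq, mul_one_div] at h4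
        exact h4)
    exact_mod_cast h3
  refine (h2.trans h1).trans ?_
  apply mul_le_mul_of_nonneg_right _ (by positivity)
  rw [tsum_mul_left, ← hL]
  have h5 : B * (c * L) ≤ η / 2 := by
    have h6 : B * (c * L) = η / 2 * (B * L / (B * L + 1)) := by
      rw [hc]
      have : B * L + 1 ≠ 0 := by positivity
      field_simp
    rw [h6]
    have h7 : B * L / (B * L + 1) ≤ 1 := by
      rw [div_le_one (by positivity)]
      linarith
    nlinarith
  linarith

/-- the first part -/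
theorem modules {m : ℕ} (ξ : Fin m → ℝ) (hm : 1 ≤ m) (halg : ∀ i, IsAlgebraic ℚ (ξ i))
    (hind : LN.Indep ξ) (κ : ℝ) (hκ : κ < m) : AlmostAllKhintchine ξ κ (20 * 8 ^ m) := by
  have hFT : LN.FT ξ := LN.t_FTL m _ (LN.t_KS m _ (LN.t_CNT m _ (LN.t_SCH m _ hm halg hind)))
  intro ψ hψ0 hψ hs Q hQ δ hδ
  obtain ⟨H₀, h⟩ := LG.main hm ξ hFT κ hκ ψ hψ0 hψ hs Q hQ δ hδ
  refine ⟨H₀, fun β H hH => ?_⟩
  have h1 := h β H hH
  have h2 : exceptions ξ β H (Khintchine Q ((H : ℝ) ^ κ) ψ) =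
      (LG.Fail ξ ψ β Q ((H : ℝ) ^ κ) H).ncard := by
    unfold exceptions LG.Fail Khintchine
    congr 1
    ext a
    simp only [Set.mem_setOf_eq]
    push Not
    rfl
  rw [h2]
  exact h1

theorem indep_of_lin {m : ℕ} (ξ : Fin m → ℝ)
    (h : LinearIndependent ℚ (Fin.cons 1 ξ : Fin (m + 1) → ℝ)) : LN.Indep ξ := by
  intro a a₀ h0
  have h1 := Fintype.linearIndependent_iff.1 h (Fin.cons (a₀ : ℚ) fun i => (a i : ℚ)) (by
    rw [Fin.sum_univ_succ]
    simp only [Fin.cons_zero, Fin.cons_succ]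
    have h2 : ∀ (x : ℚ) (y : ℝ), x • y = (x : ℝ) * y := fun x y => Rat.smul_def x y
    simp only [h2]
    push_cast
    simpa using h0)
  funext i
  have h2 := h1 i.succ
  rw [Fin.cons_succ] at h2
  exact_mod_cast h2

section

variable {m : ℕ} {K : IntermediateField ℚ ℝ} (e : Module.Basis (Fin (m + 1)) ℚ K)

theorem alg (i : Fin (m + 1)) : IsAlgebraic ℚ ((e i : K) : ℝ) := by
  have : Module.Finite ℚ K := Module.Finite.of_basis e
  have h1 : IsAlgebraic ℚ (e i) := IsAlgebraic.of_finite ℚ (e i)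
  exact h1.algebraMap

theorem exists_coord : ∃ i, e.repr 1 i ≠ 0 := by
  by_contra h
  push Not at h
  have h1 : e.repr 1 = 0 := Finsupp.ext h
  have h2 : (1 : K) = 0 := by
    apply e.repr.injective
    rw [h1, map_zero]
  exact one_ne_zero h2

theorem indep (i₀ : Fin (m + 1)) (hi : e.repr 1 i₀ ≠ 0) :
    LN.Indep (fun i : Fin m => ((e (i₀.succAbove i) : K) : ℝ)) := by
  classical
  intro a a₀ h
  have h1 : (a₀ : ℚ) • (1 : K) + ∑ i, (a i : ℚ) • e (i₀.succAbove i) = 0 := by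
    apply Subtype.ext
    have h2 : ((((a₀ : ℚ) • (1 : K) + ∑ i, (a i : ℚ) • e (i₀.succAbove i) : K)) : ℝ) =
        (a₀ : ℝ) + ∑ i, (a i : ℝ) * ((e (i₀.succAbove i) : K) : ℝ) := by
      push_cast
      simp [Algebra.smul_def]
    rw [h2, h]
    rfl
  have h3 : ∀ j, (a₀ : ℚ) * e.repr 1 j + ∑ i, (a i : ℚ) * (if i₀.succAbove i = j then 1 else 0)
      = 0 := by
    intro j
    have h4 := congrArg (fun x => e.repr x j) h1
    simp only [map_add, map_smul, map_sum, Finsupp.add_apply, Finsupp.smul_apply, map_zero,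
      Finsupp.coe_finset_sum, Finset.sum_apply, Module.Basis.repr_self, Finsupp.single_apply,
      smul_eq_mul, Finsupp.zero_apply] at h4
    exact h4
  have h5 : (a₀ : ℚ) = 0 := by
    have h6 := h3 i₀
    have h7 : ∑ i, (a i : ℚ) * (if i₀.succAbove i = i₀ then 1 else 0) = 0 := by
      refine Finset.sum_eq_zero fun i _ => ?_
      rw [if_neg (Fin.succAbove_ne i₀ i), mul_zero]
    rw [h7, add_zero] at h6
    exact (mul_eq_zero.1 h6).resolve_right hi
  funext j
  have h6 := h3 (i₀.succAbove j)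
  rw [h5, zero_mul, zero_add, Finset.sum_eq_single j] at h6
  · rw [if_pos rfl, mul_one] at h6
    exact_mod_cast h6
  · intro i _ hij
    rw [if_neg (fun h => hij (Fin.succAbove_right_injective h)), mul_zero]
  · intro h
    exact absurd (Finset.mem_univ j) h

/-- the second part -/
theorem lattices (hm : 1 ≤ m) (κ : ℝ) (hκ : κ < m) :
    AlmostAllKhintchine (fun i => ((e i : K) : ℝ)) κ (60 * 8 ^ m) := by
  classical
  obtain ⟨i₀, hi⟩ := exists_coord e
  have hmod := modules (fun i : Fin m => ((e (i₀.succAbove i) : K) : ℝ)) hm (fun i => alg e _)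
    (indep e i₀ hi) κ hκ
  intro ψ hψ0 hψ hs Q hQ δ hδ
  obtain ⟨H₀, h⟩ := hmod ψ hψ0 hψ hs Q hQ (δ / 3) (by linarith)
  refine ⟨max H₀ 1, fun β H hHH => ?_⟩
  have hH₀ : H₀ ≤ H := (le_max_left _ _).trans hHH
  have hH : 1 ≤ H := (le_max_right _ _).trans hHH
  have hH' : (1 : ℝ) ≤ H := by exact_mod_cast hH
  set P := Khintchine Q ((H : ℝ) ^ κ) ψ with hP
  set ξ : Fin m → ℝ := fun i => ((e (i₀.succAbove i) : K) : ℝ) with hξ
  set T : ℤ → Finset (Fin m → ℤ) := fun s =>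
    (box_finite H fun a : Fin m → ℤ => ¬ P (β + s * ((e i₀ : K) : ℝ) +
      ∑ i, (a i : ℝ) * ξ i)).toFinset with hT
  have hTc : ∀ s : ℤ, ((T s).card : ℝ) ≤ (20 * 8 ^ m * ∑' q, ψ (q + Q) + δ / 3) * (H : ℝ) ^ m := by
    intro s
    have h1 := h (β + s * ((e i₀ : K) : ℝ)) H hH₀
    have h2 : (T s).card = exceptions ξ (β + s * ((e i₀ : K) : ℝ)) H P := by
      unfold exceptions
      rw [Set.ncard_eq_toFinset_card _ (box_finite H _)]
    rw [h2]
    exact h1
  have hsub : {a : Fin (m + 1) → ℤ | (∀ i, |a i| ≤ (H : ℤ)) ∧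
      ¬ P (β + ∑ i, (a i : ℝ) * ((e i : K) : ℝ))} ⊆
      (((Icc (-(H : ℤ)) H).biUnion fun s => (T s).image fun a => i₀.insertNth s a :
        Finset (Fin (m + 1) → ℤ)) : Set (Fin (m + 1) → ℤ)) := by
    rintro a ⟨h1, h2⟩
    rw [Finset.mem_coe, Finset.mem_biUnion]
    refine ⟨a i₀, ?_, ?_⟩
    · rw [mem_Icc]
      exact abs_le.1 (h1 i₀)
    · rw [Finset.mem_image]
      refine ⟨fun i => a (i₀.succAbove i), ?_, ?_⟩
      · simp only [hT, Set.Finite.mem_toFinset, Set.mem_setOf_eq]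
        refine ⟨fun i => h1 _, ?_⟩
        have h3 : β + (a i₀ : ℝ) * ((e i₀ : K) : ℝ) + ∑ i, (a (i₀.succAbove i) : ℝ) * ξ i =
            β + ∑ i, (a i : ℝ) * ((e i : K) : ℝ) := by
          rw [Fin.sum_univ_succAbove _ i₀, add_assoc]
        rw [h3]
        exact h2
      · exact Fin.insertNth_self_removeNth i₀ a
  have h1 : exceptions (fun i => ((e i : K) : ℝ)) β H P ≤
      ∑ s ∈ Icc (-(H : ℤ)) H, (T s).card := by
    unfold exceptions
    have h2 := Set.ncard_le_ncard hsub (Finset.finite_toSet _)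
    rw [Set.ncard_coe_finset] at h2
    refine h2.trans (Finset.card_biUnion_le.trans (Finset.sum_le_sum fun s _ => ?_))
    exact Finset.card_image_le
  have h2 : (exceptions (fun i => ((e i : K) : ℝ)) β H P : ℝ) ≤
      ∑ s ∈ Icc (-(H : ℤ)) H, ((T s).card : ℝ) := by exact_mod_cast h1
  refine h2.trans ((Finset.sum_le_sum fun s _ => hTc s).trans ?_)
  rw [Finset.sum_const, nsmul_eq_mul, Int.card_Icc]
  have h3 : (((H : ℤ) + 1 - -(H : ℤ)).toNat : ℝ) ≤ 3 * H := by
    have h4 : ((H : ℤ) + 1 - -(H : ℤ)).toNat = 2 * H + 1 := by omega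
    rw [h4]
    push_cast
    linarith
  have hψs : 0 ≤ ∑' q, ψ (q + Q) := tsum_nonneg fun q => hψ0 _
  have h4 : 0 ≤ (20 * 8 ^ m * ∑' q, ψ (q + Q) + δ / 3) * (H : ℝ) ^ m := by positivity
  refine (mul_le_mul_of_nonneg_right h3 h4).trans (le_of_eq ?_)
  rw [pow_succ]
  ring

end

/-- **Lang's inequality for almost all elements of the translates of lattices of algebraic numbers.**

(1) Let `ξ 1, …, ξ m` (`m ≥ 1`) be real algebraic numbers such that `1, ξ 1, …, ξ m` are linearly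
independent over `ℚ`, and let `κ < m`. For every nonnegative nonincreasing summable `ψ`, every `Q ≥ 1`
and `δ > 0` there is `H₀` such that for all `H ≥ H₀` and ALL real numbers `β` at most
`(20 * 8 ^ m * ∑_{q ≥ Q} ψ(q) + δ) H ^ m` of the numbers `α = β + ∑ a i * ξ i`, `|a i| ≤ H`, satisfy
`|α - p / q| ≤ ψ(q) / q` for some integers `p` and `Q ≤ q ≤ H ^ κ`. In particular for all `ε, η > 0`
there is `c > 0` such that for all large `H` and ALL real numbers `β` all but at most `η H ^ m` of them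
satisfy `|α - p / q| > c / (q² (log q)^(1+ε))` for all integers `p` and all `2 ≤ q ≤ H ^ κ`.

(2) Let `K` be a real number field of degree `m + 1 ≥ 2` with ANY basis `e` over `ℚ` (for example a
basis of its ring of integers), and `κ < m`. Then the same holds for the numbers `β + ∑ a i * e i`,
`|a i| ≤ H`, with `60 * 8 ^ m` and `H ^ (m + 1)` instead of `20 * 8 ^ m` and `H ^ m`. -/
theorem result :
    (∀ (m : ℕ) (ξ : Fin m → ℝ), 1 ≤ m → (∀ i, IsAlgebraic ℚ (ξ i)) →
      LinearIndependent ℚ (Fin.cons 1 ξ : Fin (m + 1) → ℝ) → ∀ κ : ℝ, κ < m →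
        AlmostAllKhintchine ξ κ (20 * 8 ^ m) ∧ AlmostAllLang ξ κ) ∧
    (∀ (K : IntermediateField ℚ ℝ) (m : ℕ), 1 ≤ m → ∀ e : Module.Basis (Fin (m + 1)) ℚ K,
      ∀ κ : ℝ, κ < m →
        AlmostAllKhintchine (fun i => ((e i : K) : ℝ)) κ (60 * 8 ^ m) ∧
          AlmostAllLang (fun i => ((e i : K) : ℝ)) κ) := by
  refine ⟨fun m ξ hm halg hlin κ hκ => ?_, fun K m hm e κ hκ => ?_⟩
  · have h := modules ξ hm halg (indep_of_lin ξ hlin) κ hκ
    exact ⟨h, lang_of ξ κ _ (by positivity) h⟩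
  · have h := lattices e hm κ hκ
    exact ⟨h, lang_of _ κ _ (by positivity) h⟩

end Pool.Agent.Results.MP_c307ca_nt.TranslatesOfLattices
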