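import Pool.Agent.Run7.h844.RP.PwU4

/-!
# Lang's inequality for almost all values of generalised polynomials at primes

Method: exponential sums over primes with the phase of a generalised polynomial: derivative bounds uniform in the
coefficients, van der Corput differencing of all orders, bilinear sums, Vaughan's identity (after `Pool.Agent.H895R3.NK`,
`Pool.Agent.H373R2.T7`), with a power saving at all frequencies up to a power (library `Pool.Agent.Run7.h844.RP`), and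
Fejér's kernel for each denominator (`Pool.Agent.N965.LN.Fej`).
-/

set_option autoImplicit false

namespace Pool.Agent.Results.MP_c307ca_nt.ValuesAtPrimes

open Finset Filter
open Pool.Agent.N965.LN (lang lang_summable lang_nonneg lang_eq)

/-- The generalised polynomial `∑ a x * t ^ x`, `x ∈ F`, with real exponents and coefficients. -/
noncomputable def genPoly (F : Finset ℝ) (a : ℝ → ℝ) (t : ℝ) : ℝ := ∑ x ∈ F, a x * t ^ x

/-- `c` is the largest exponent; it is positive and not an integer, and its coefficient is not zero. -/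
def Leading (F : Finset ℝ) (a : ℝ → ℝ) (c : ℝ) : Prop :=
  c ∈ F ∧ (∀ x ∈ F, x ≤ c) ∧ 0 < c ∧ (∀ m : ℕ, c ≠ m) ∧ a c ≠ 0

/-- the primes in `(X, 2 X]` -/
def P (X : ℕ) : Finset ℕ := (Ioc X (2 * X)).filter Nat.Prime

/-- Lang's inequality for the number `α` with the constant `c`, for the denominators up to `N`. -/
def LangUpTo (N c ε α : ℝ) : Prop :=
  ∀ (b : ℤ) (q : ℕ), 2 ≤ q → (q : ℝ) ≤ N →
    c / ((q : ℝ) ^ 2 * Real.log q ^ (1 + ε)) < |α - (b : ℝ) / q|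

open Classical in
/-- Let `f` be a generalised polynomial whose largest exponent `c` is positive and not an integer. There is `κ > 0` such that

(1) for all large `X`, every real `z`, every function `ψ ≥ 0` (no monotonicity) and every `Y ≥ 1`, the proportion of the primes
`X < p ≤ 2 X` for which `|f(p) + z - b / q| ≤ ψ(q) / q` for some integer `b` and some `Y ≤ q ≤ X ^ κ` is at most
`10 ∑_{Y ≤ q ≤ X ^ κ} ψ(q) + X ^ (-κ)`;

(2) for all `ε, η > 0` there is `c₁ > 0` such that for all large `X` and every real `z`, all but a proportion of at most `η` of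
the primes `X < p ≤ 2 X` satisfy `|f(p) + z - b / q| > c₁ / (q ^ 2 (log q) ^ (1 + ε))` for ALL integers `b` and ALL
`2 ≤ q ≤ X ^ κ`. -/
theorem result (F : Finset ℝ) (a : ℝ → ℝ) (c : ℝ) (hF : Leading F a c) : ∃ κ : ℝ, 0 < κ ∧
    (∃ X₀ : ℕ, ∀ X : ℕ, X₀ ≤ X → ∀ z : ℝ, ∀ ψ : ℕ → ℝ, (∀ q, 0 ≤ ψ q) → ∀ Y : ℕ, 1 ≤ Y →
      (((P X).filter fun p : ℕ => ∃ q : ℕ, Y ≤ q ∧ (q : ℝ) ≤ (X : ℝ) ^ κ ∧ ∃ b : ℤ,
        |genPoly F a p + z - (b : ℝ) / q| ≤ ψ q / q).card : ℝ) ≤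
        (10 * ∑ q ∈ Icc Y ⌊(X : ℝ) ^ κ⌋₊, ψ q + (X : ℝ) ^ (-κ)) * (P X).card) ∧
    (∀ ε η : ℝ, 0 < ε → 0 < η → ∃ c₁ : ℝ, 0 < c₁ ∧ ∃ X₀ : ℕ, ∀ X : ℕ, X₀ ≤ X → ∀ z : ℝ,
      (((P X).filter fun p : ℕ => ¬ LangUpTo ((X : ℝ) ^ κ) c₁ ε (genPoly F a p + z)).card : ℝ) ≤ η * (P X).card) := by
  obtain ⟨hcF, hmax, hc, hn, ha⟩ := hF
  obtain ⟨κ, hκ, X₀, hX₀, h1⟩ := Pool.Agent.Run7.h844.RP.Wy.primes_lang F c hcF hn hc hmax a ha
  have h2 : ∀ X : ℕ, X₀ ≤ X → ∀ z : ℝ, ∀ ψ : ℕ → ℝ, (∀ q, 0 ≤ ψ q) → ∀ Y : ℕ, 1 ≤ Y →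
      (((P X).filter fun p : ℕ => ∃ q : ℕ, Y ≤ q ∧ (q : ℝ) ≤ (X : ℝ) ^ κ ∧ ∃ b : ℤ,
        |genPoly F a p + z - (b : ℝ) / q| ≤ ψ q / q).card : ℝ) ≤
        (10 * ∑ q ∈ Icc Y ⌊(X : ℝ) ^ κ⌋₊, ψ q + (X : ℝ) ^ (-κ)) * (P X).card := by
    intro X hX z ψ hψ Y hY
    rw [mul_comm]
    exact h1 X hX z ψ hψ Y hY
  refine ⟨κ, hκ, ⟨X₀, h2⟩, fun ε η hε hη => ?_⟩
  obtain ⟨L, hL⟩ : ∃ L : ℝ, L = ∑' q, lang ε q := ⟨_, rfl⟩
  have hL0 : 0 ≤ L := by rw [hL]; exact tsum_nonneg fun q => lang_nonneg ε q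
  have hc₁ : 0 < η / (20 * (L + 1)) := by positivity
  have hev := ((tendsto_rpow_atTop hκ).comp (tendsto_natCast_atTop_atTop (R := ℝ))).eventually_ge_atTop (2 / η)
  obtain ⟨X₁, hX₁⟩ := eventually_atTop.mp hev
  refine ⟨η / (20 * (L + 1)), hc₁, X₀ + X₁ + 1, fun X hX z => ?_⟩
  have g1 := hX₁ X (by omega)
  simp only [Function.comp] at g1
  have hX0 : (0 : ℝ) < X := by exact_mod_cast (by omega : 0 < X)
  have h3 := h2 X (by omega) z (fun q => η / (20 * (L + 1)) * lang ε q)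
    (fun q => mul_nonneg hc₁.le (lang_nonneg ε q)) 2 (by norm_num)
  have h4 : (((P X).filter fun p : ℕ => ¬ LangUpTo ((X : ℝ) ^ κ) (η / (20 * (L + 1))) ε (genPoly F a p + z)).card : ℝ) ≤
      (((P X).filter fun p : ℕ => ∃ q : ℕ, 2 ≤ q ∧ (q : ℝ) ≤ (X : ℝ) ^ κ ∧ ∃ b : ℤ,
        |genPoly F a p + z - (b : ℝ) / q| ≤ η / (20 * (L + 1)) * lang ε q / q).card : ℝ) := by
    apply Nat.cast_le.2
    apply card_le_card
    intro p hp
    rw [mem_filter] at hp ⊢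
    refine ⟨hp.1, ?_⟩
    by_contra hcon
    apply hp.2
    intro b q hq hqX
    by_contra hlt
    apply hcon
    refine ⟨q, hq, hqX, b, ?_⟩
    push Not at hlt
    rwa [mul_div_assoc, lang_eq ε q hq, mul_one_div]
  refine h4.trans (h3.trans (mul_le_mul_of_nonneg_right ?_ (Nat.cast_nonneg _)))
  rw [← mul_sum]
  have h5 : ∑ q ∈ Icc 2 ⌊(X : ℝ) ^ κ⌋₊, lang ε q ≤ L := by
    rw [hL]
    exact (lang_summable ε hε).sum_le_tsum _ fun q _ => lang_nonneg ε q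
  have h6 : (X : ℝ) ^ (-κ) ≤ η / 2 := by
    rw [Real.rpow_neg hX0.le, ← one_div, div_le_iff₀ (by positivity)]
    rw [div_le_iff₀ hη] at g1
    linarith
  have h7 : 10 * (η / (20 * (L + 1)) * ∑ q ∈ Icc 2 ⌊(X : ℝ) ^ κ⌋₊, lang ε q) ≤ η / 2 := by
    have e1 : η / (20 * (L + 1)) * ∑ q ∈ Icc 2 ⌊(X : ℝ) ^ κ⌋₊, lang ε q ≤ η / (20 * (L + 1)) * (L + 1) :=
      mul_le_mul_of_nonneg_left (by linarith) hc₁.le
    have e2 : η / (20 * (L + 1)) * (L + 1) = η / 20 := by field_simp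
    linarith
  linarith

end Pool.Agent.Results.MP_c307ca_nt.ValuesAtPrimes
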